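import Mathlib
import Pool.Agent.Helper3.DL.Defs
import Pool.Agent.Helper4.DL.Cells
import Pool.Agent.Helper4.DL.Binom
import Pool.Agent.Helper27.DL.Cells
import Pool.Agent.Helper90.DL.Transfer
import Pool.Agent.Helper13.DL.DL7

/-! # DL-9 : decoupling for monomial curves from decoupling for the moment curve -/

namespace Pool.Agent.DL

open MeasureTheory Finset

variable {n k : ℕ}

lemma tri_pos' {n : ℕ} (hn : 1 ≤ n) : 1 ≤ tri n := by
  unfold tri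
  rw [Nat.one_le_div_iff (by norm_num)]
  nlinarith

lemma split_exists (n N : ℕ) : ∃ N₁ N₂, N = N₁ + N₂ ∧ n * N₂ ≤ N₁ ∧ (n + 1) * N₁ ≤ n * N + n := by
  have h1 : (n * N + n) / (n + 1) ≤ N := by
    rw [Nat.div_le_iff_le_mul_add_pred (by omega)]
    have : (n + 1) * N = n * N + N := by ring
    rw [this]
    omega
  have h2 : (n + 1) * ((n * N + n) / (n + 1)) ≤ n * N + n := Nat.mul_div_le _ _
  have h3 : n * N + n < (n + 1) * ((n * N + n) / (n + 1)) + (n + 1) :=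
    Nat.lt_mul_div_succ _ (by omega)
  obtain ⟨N₂, hN₂⟩ := Nat.exists_eq_add_of_le h1
  refine ⟨(n * N + n) / (n + 1), N₂, hN₂, ?_, h2⟩
  generalize (n * N + n) / (n + 1) = a at *
  subst hN₂
  nlinarith

lemma curve_iter (n : ℕ) (hn : 1 ≤ n) (h : DecThm n) (e : Fin n → ℕ) (he : Function.Injective e)
    (h1 : ∀ j, 1 ≤ e j) (r : ℕ) : ∀ C : ℝ, 1 ≤ C → ∀ ε : ℝ, 0 < ε → ∃ K : ℝ, 0 < K ∧
      ∀ u σ : ℝ, 0 < σ → σ ≤ 1 → (∀ v, u ≤ v → v ≤ u + σ → 1 / 4 ≤ |v| ∧ |v| ≤ 4) →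
        ∀ N : ℕ, DecOn (tri n) e C u σ N (K * 2 ^ ((((n : ℝ) / (n + 1)) ^ r + ε) * N)) := by
  induction r with
  | zero =>
    intro C hC ε hε
    refine ⟨1, one_pos, fun u σ hσ hσ1 huv N => ?_⟩
    refine DecIneq.mono (dec_trivial (tri_pos' hn) _ _) (fun _ _ => subset_rfl) ?_
    rw [pow_zero, one_mul]
    push_cast
    rw [← Real.rpow_natCast]
    refine Real.rpow_le_rpow_of_exponent_le (by norm_num) ?_
    nlinarith [Nat.cast_nonneg (α := ℝ) N]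
  | succ r ih =>
    intro C hC ε hε
    obtain ⟨C₁, hC₁, hnest⟩ := cell_nest e he h1 hC
    obtain ⟨C₂, hC₂, hconv⟩ := cell_conv e he h1 hC
    obtain ⟨K₁, hK₁, hd₁⟩ := ih C₁ hC₁ ε hε
    obtain ⟨K₂, hK₂, hd₂⟩ := h C₂ hC₂ ε hε
    refine ⟨2 * K₁ * K₂, by positivity, fun u σ hσ hσ1 huv N => ?_⟩
    obtain ⟨N₁, N₂, rfl, hN₂, hN₁⟩ := split_exists n N
    have hpos1 : (0 : ℝ) < 2 ^ N₁ := by positivity
    have hpos2 : (0 : ℝ) < 2 ^ N₂ := by positivity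
    have hq : σ / 2 ^ (N₁ + N₂) = σ / 2 ^ N₁ * (1 / 2 ^ N₂) := by
      rw [pow_add]; field_simp
    have hστ : 0 < σ / 2 ^ N₁ := by positivity
    have hστ1 : σ / 2 ^ N₁ ≤ 1 := by
      rw [div_le_one hpos1]
      exact hσ1.trans (one_le_pow₀ (by norm_num))
    have harc : ∀ i : ℕ, i < 2 ^ N₁ → 1 / 4 ≤ |u + i * (σ / 2 ^ N₁)| ∧
        |u + i * (σ / 2 ^ N₁)| ≤ 4 := by
      intro i hi
      refine huv _ ?_ ?_
      · have : 0 ≤ (i : ℝ) * (σ / 2 ^ N₁) := by positivity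
        linarith
      · have hi' : (i : ℝ) ≤ 2 ^ N₁ := by exact_mod_cast hi.le
        have : (i : ℝ) * (σ / 2 ^ N₁) ≤ 2 ^ N₁ * (σ / 2 ^ N₁) :=
          mul_le_mul_of_nonneg_right hi' hστ.le
        have h3 : (2 : ℝ) ^ N₁ * (σ / 2 ^ N₁) = σ := by field_simp
        linarith
    have hcent : ∀ i j : ℕ, u + ((i * 2 ^ N₂ + j : ℕ) : ℝ) * (σ / 2 ^ (N₁ + N₂)) =
        u + i * (σ / 2 ^ N₁) + σ / 2 ^ N₁ * (j * (1 / 2 ^ N₂)) := by
      intro i j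
      rw [hq]
      push_cast
      field_simp
      ring
    have hv : ∀ j : ℕ, j < 2 ^ N₂ → 0 ≤ (j : ℝ) * (1 / 2 ^ N₂) ∧
        (j : ℝ) * (1 / 2 ^ N₂) + 1 / 2 ^ N₂ ≤ 1 := by
      intro j hj
      refine ⟨by positivity, ?_⟩
      have hj' : (j : ℝ) + 1 ≤ 2 ^ N₂ := by exact_mod_cast hj
      have h3 : (j : ℝ) * (1 / 2 ^ N₂) + 1 / 2 ^ N₂ = ((j : ℝ) + 1) / 2 ^ N₂ := by ring
      rw [h3, div_le_one hpos2]
      exact hj'
    have hρ : (0 : ℝ) < 1 / 2 ^ N₂ := by positivity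
    have hsmall : σ / 2 ^ N₁ ≤ (1 / 2 ^ N₂) ^ n := by
      rw [div_pow, one_pow, ← pow_mul, div_le_div_iff₀ hpos1 (by positivity), one_mul]
      have h3 : (2 : ℝ) ^ (N₂ * n) ≤ 2 ^ N₁ :=
        pow_le_pow_right₀ (by norm_num) (by rw [Nat.mul_comm]; exact hN₂)
      calc σ * 2 ^ (N₂ * n) ≤ 1 * 2 ^ (N₂ * n) :=
            mul_le_mul_of_nonneg_right hσ1 (by positivity)
        _ ≤ 2 ^ N₁ := by rw [one_mul]; exact h3
    have key := dec_group (s := tri n)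
      (fun j : ℕ => cell e (u + j * (σ / 2 ^ (N₁ + N₂))) (σ / 2 ^ (N₁ + N₂)) C)
      (fun i : ℕ => cell e (u + i * (σ / 2 ^ N₁)) (σ / 2 ^ N₁) C₁) (2 ^ N₁) (2 ^ N₂)
      (K₁ * 2 ^ ((((n : ℝ) / (n + 1)) ^ r + ε) * N₁)) (K₂ * 2 ^ (ε * N₂)) (by positivity)
      (by positivity) (hd₁ u σ hσ hσ1 huv N₁) ?_ ?_
    · rw [← pow_add] at key
      refine key.mono (fun _ _ => subset_rfl) ?_
      have hθ : ((n : ℝ) / (n + 1)) ^ r * N₁ ≤ ((n : ℝ) / (n + 1)) ^ (r + 1) * (N₁ + N₂) + 1 := by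
        have h3 : ((n : ℝ) + 1) * N₁ ≤ n * (N₁ + N₂) + n := by exact_mod_cast hN₁
        have h4 : (N₁ : ℝ) ≤ (n : ℝ) / (n + 1) * (N₁ + N₂) + 1 := by
          have h5 : (N₁ : ℝ) ≤ (n * (N₁ + N₂) + n) / (n + 1) := by
            rw [le_div_iff₀ (by positivity)]
            linarith
          have h6 : ((n : ℝ) * (N₁ + N₂) + n) / (n + 1) ≤ (n : ℝ) / (n + 1) * (N₁ + N₂) + 1 := by
            rw [div_mul_eq_mul_div, div_add' _ _ _ (by positivity), div_le_div_iff_of_pos_right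
              (by positivity)]
            linarith
          linarith
        have h7 : 0 ≤ ((n : ℝ) / (n + 1)) ^ r := by positivity
        have h8 : ((n : ℝ) / (n + 1)) ^ r ≤ 1 := by
          refine pow_le_one₀ (by positivity) ?_
          rw [div_le_one (by positivity)]
          linarith
        calc ((n : ℝ) / (n + 1)) ^ r * N₁ ≤
              ((n : ℝ) / (n + 1)) ^ r * ((n : ℝ) / (n + 1) * (N₁ + N₂) + 1) :=
              mul_le_mul_of_nonneg_left h4 h7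
          _ = ((n : ℝ) / (n + 1)) ^ (r + 1) * (N₁ + N₂) + ((n : ℝ) / (n + 1)) ^ r := by ring
          _ ≤ _ := by linarith
      have h9 : (2 : ℝ) ^ ((((n : ℝ) / (n + 1)) ^ r + ε) * N₁) * 2 ^ (ε * N₂) ≤
          2 * 2 ^ ((((n : ℝ) / (n + 1)) ^ (r + 1) + ε) * ((N₁ + N₂ : ℕ) : ℝ)) := by
        rw [← Real.rpow_add (by norm_num)]
        have h10 : (2 : ℝ) * 2 ^ ((((n : ℝ) / (n + 1)) ^ (r + 1) + ε) * ((N₁ + N₂ : ℕ) : ℝ)) =
            2 ^ (1 + (((n : ℝ) / (n + 1)) ^ (r + 1) + ε) * ((N₁ + N₂ : ℕ) : ℝ)) := by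
          rw [Real.rpow_add (by norm_num), Real.rpow_one]
        rw [h10]
        refine Real.rpow_le_rpow_of_exponent_le (by norm_num) ?_
        push_cast
        nlinarith
      calc K₁ * 2 ^ ((((n : ℝ) / (n + 1)) ^ r + ε) * N₁) * (K₂ * 2 ^ (ε * N₂)) =
            K₁ * K₂ * (2 ^ ((((n : ℝ) / (n + 1)) ^ r + ε) * N₁) * 2 ^ (ε * N₂)) := by ring
        _ ≤ K₁ * K₂ * (2 * 2 ^ ((((n : ℝ) / (n + 1)) ^ (r + 1) + ε) * ((N₁ + N₂ : ℕ) : ℝ))) :=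
            mul_le_mul_of_nonneg_left h9 (by positivity)
        _ = _ := by ring
    · intro i hi
      obtain ⟨hu1, hu2⟩ := harc i hi
      have hu0 : u + i * (σ / 2 ^ N₁) ≠ 0 := by
        intro h0
        rw [h0, abs_zero] at hu1
        norm_num at hu1
      have ht := transfer (tri_pos' hn) (P e (u + i * (σ / 2 ^ N₁)) (σ / 2 ^ N₁) 0)
        (PM e (u + i * (σ / 2 ^ N₁)) (σ / 2 ^ N₁)) (det_curve e he h1 hu0 hστ.ne') _ _ _ (hd₂ N₂)
      refine DecIneq.mono ht (fun j hj => ?_) le_rfl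
      have hc := hconv (u + i * (σ / 2 ^ N₁)) (σ / 2 ^ N₁) (j * (1 / 2 ^ N₂)) (1 / 2 ^ N₂)
        hu1 hu2 hστ hστ1 (hv j hj).1 hρ (hv j hj).2 hsmall
      have hP : P e (u + i * (σ / 2 ^ N₁)) (σ / 2 ^ N₁) = fun lam =>
          P e (u + i * (σ / 2 ^ N₁)) (σ / 2 ^ N₁) 0 +
            (PM e (u + i * (σ / 2 ^ N₁)) (σ / 2 ^ N₁)).mulVec lam := by
        funext lam
        exact P_eq _ _ _ _
      rw [← hP]
      simp only [zero_add]
      rw [hcent, hq]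
      exact hc
    · intro i hi j hj
      obtain ⟨hu1, hu2⟩ := harc i hi
      have hc := hnest (u + i * (σ / 2 ^ N₁)) (σ / 2 ^ N₁) (j * (1 / 2 ^ N₂)) (1 / 2 ^ N₂)
        hu1 hu2 hστ hστ1 (hv j hj).1 hρ (hv j hj).2
      rw [hcent, hq]
      exact hc

theorem curve_of_dec (n : ℕ) (hn : 1 ≤ n) (h : DecThm n) : CurveThm n := by
  intro e he h1 C hC ε hε
  obtain ⟨r, hr⟩ : ∃ r : ℕ, ((n : ℝ) / (n + 1)) ^ r < ε / 2 := by
    refine exists_pow_lt_of_lt_one (by positivity) ?_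
    rw [div_lt_one (by positivity)]
    linarith
  obtain ⟨K, hK, hd⟩ := curve_iter n hn h e he h1 r C hC (ε / 2) (by positivity)
  refine ⟨K, hK, fun u σ hσ hσ1 huv N => ?_⟩
  refine DecIneq.mono (hd u σ hσ hσ1 huv N) (fun _ _ => subset_rfl) ?_
  refine mul_le_mul_of_nonneg_left ?_ hK.le
  refine Real.rpow_le_rpow_of_exponent_le (by norm_num) ?_
  refine mul_le_mul_of_nonneg_right ?_ (Nat.cast_nonneg N)
  linarith

end Pool.Agent.DL
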